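import Pool.Agent.Lib.MP_7e122f_anR.AllP

/-!
# MP_7e122f_an : the hexagonal lattice is optimal for Gaussian Gabor frame bounds

For every real density `δ > 1`, among all lattices of density `δ` the hexagonal lattice is the
unique maximizer of the lower frame bound and the unique minimizer of the upper frame bound of
the Gabor system of the standard Gaussian.
-/

namespace Pool.Agent.Results.MP_7e122f_an.HexOptimalAllDensities

open _root_.MP7e122f

theorem result (δ : ℝ) (hδ : 1 < δ) (M H : Matrix (Fin 2) (Fin 2) ℝ)
    (hM : |M.det| = δ⁻¹) (hH : |H.det| = δ⁻¹) (hhex : IsHexagonal (lattice H)) :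
    (IsGreatest (lowerSet (lattice M)) (lowerBound (lattice M)) ∧
      IsLeast (upperSet (lattice M)) (upperBound (lattice M))) ∧
    (IsHexagonal (lattice M) →
      lowerBound (lattice M) = lowerBound (lattice H) ∧
      upperBound (lattice M) = upperBound (lattice H)) ∧
    (¬ IsHexagonal (lattice M) →
      lowerBound (lattice M) < lowerBound (lattice H) ∧
      upperBound (lattice H) < upperBound (lattice M)) :=
  Num.main' Num.allPairs δ hδ M H hM hH hhex

end Pool.Agent.Results.MP_7e122f_an.HexOptimalAllDensities
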